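import Pool.Agent.Helper52.SM.Goals
import Pool.Agent.Helper79.CS.PR2

/-!
# Packet SM-NUM (MP_34c247_lc): the numbers
-/

namespace Pool.Agent.Helper40.SM

open Pool.Agent.Helper52.SM Pool.Agent.Helper65.CS Pool.Agent.Helper78.DT
open Pool.Agent.Helper52.SX (lossT NutStmt)
open Pool.Agent.Helper79.CS (pow_le_two_pow)

theorem two_pow_lg_le (X : ℕ) : 2 ^ lg X ≤ 4 * X + 4 := by
  unfold lg
  rw [pow_add]
  rcases Nat.eq_zero_or_pos X with h | h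
  · subst h
    simp
  · have := Nat.pow_log_le_self 2 (by omega : X ≠ 0)
    omega

theorem le_lg {r e L : ℕ} (hL : 2 ≤ L) (hr : r ^ (e + 1) ≤ L ^ e) : r ≤ L := by
  by_contra hc
  rw [not_le] at hc
  have h5 : L ^ e ≤ r ^ e := Nat.pow_le_pow_left hc.le e
  have h6 : 0 < r ^ e := pow_pos (by omega) e
  have h7 : r ^ e * 1 < r ^ e * r := Nat.mul_lt_mul_of_pos_left (by omega) h6
  rw [pow_succ] at hr
  omega

theorem len_le {B T c E : ℕ} (hB1 : 1 ≤ B) (hT : T + 1 ≤ B) (hbd : 2 ^ E ≤ B ^ c) :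
    (1 + (T : ℝ) * 2 ^ E) * (1 + (T : ℝ) / (1 / (B : ℝ) ^ (8 * c + 4))) ≤
      ((B ^ (9 * c + 10) : ℕ) : ℝ) := by
  have hBp : (0 : ℝ) < B := by exact_mod_cast (by omega : 0 < B)
  have hB1' : (1 : ℝ) ≤ B := by exact_mod_cast hB1
  have hTB : (1 : ℝ) + T ≤ B := by
    have : ((T + 1 : ℕ) : ℝ) ≤ B := by exact_mod_cast hT
    push_cast at this
    linarith
  have hbd' : (2 : ℝ) ^ E ≤ (B : ℝ) ^ c := by exact_mod_cast hbd
  have hT0 : (0 : ℝ) ≤ T := Nat.cast_nonneg _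
  have key : ∀ j : ℕ, 1 + (T : ℝ) * (B : ℝ) ^ j ≤ (B : ℝ) ^ (j + 1) := by
    intro j
    have h5 : (1 : ℝ) ≤ (B : ℝ) ^ j := one_le_pow₀ hB1'
    calc 1 + (T : ℝ) * (B : ℝ) ^ j ≤ (B : ℝ) ^ j + T * (B : ℝ) ^ j := by linarith
      _ = (1 + T) * (B : ℝ) ^ j := by ring
      _ ≤ B * (B : ℝ) ^ j := mul_le_mul_of_nonneg_right hTB (by positivity)
      _ = _ := by ring
  have h6 : 1 + (T : ℝ) * 2 ^ E ≤ (B : ℝ) ^ (c + 1) := by
    refine le_trans ?_ (key c)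
    have := mul_le_mul_of_nonneg_left hbd' hT0
    linarith
  have h7 : 1 + (T : ℝ) / (1 / (B : ℝ) ^ (8 * c + 4)) ≤ (B : ℝ) ^ (8 * c + 4 + 1) := by
    rw [div_div_eq_mul_div, div_one]
    exact key _
  calc (1 + (T : ℝ) * 2 ^ E) * (1 + (T : ℝ) / (1 / (B : ℝ) ^ (8 * c + 4)))
      ≤ (B : ℝ) ^ (c + 1) * (B : ℝ) ^ (8 * c + 4 + 1) :=
        mul_le_mul h6 h7 (by positivity) (by positivity)
    _ = (B : ℝ) ^ (9 * c + 6) := by rw [← pow_add]; congr 1; ring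
    _ ≤ (B : ℝ) ^ (9 * c + 10) := pow_le_pow_right₀ hB1' (by omega)
    _ = _ := (Nat.cast_pow _ _).symm

theorem loss_le {B L r c k E : ℕ} (hB1 : 1 ≤ B) (hL2 : 2 ≤ L) (hr : r ≤ L)
    (hbd : 2 ^ E ≤ B ^ c) (hLB : L ^ (k + 6) ≤ B) {y : ℝ} (hy : y ≤ 1 / (L : ℝ) ^ (k + 5)) :
    y + r * (√(1 / (B : ℝ) ^ (8 * c + 4)) * 4 ^ (2 * E)) ≤ 1 / (L : ℝ) ^ (k + 4) := by
  have hBp : (0 : ℝ) < B := by exact_mod_cast (by omega : 0 < B)
  have hB1' : (1 : ℝ) ≤ B := by exact_mod_cast hB1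
  have hLp : (0 : ℝ) < L := by exact_mod_cast (by omega : 0 < L)
  have hL2' : (2 : ℝ) ≤ L := by exact_mod_cast hL2
  have hbd' : (2 : ℝ) ^ E ≤ (B : ℝ) ^ c := by exact_mod_cast hbd
  have hrL : (r : ℝ) ≤ L := by exact_mod_cast hr
  have hLB' : (L : ℝ) ^ (k + 6) ≤ B := by exact_mod_cast hLB
  have hsq : √(1 / (B : ℝ) ^ (8 * c + 4)) = 1 / (B : ℝ) ^ (4 * c + 2) := by
    have : (1 : ℝ) / (B : ℝ) ^ (8 * c + 4) = (1 / (B : ℝ) ^ (4 * c + 2)) ^ 2 := by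
      rw [one_div_pow, ← pow_mul]
      congr 2
      ring
    rw [this, Real.sqrt_sq (by positivity)]
  have h4 : (4 : ℝ) ^ (2 * E) ≤ (B : ℝ) ^ (4 * c) := by
    calc (4 : ℝ) ^ (2 * E) = (2 ^ E) ^ 4 := by
          have : (4 : ℝ) = 2 ^ 2 := by norm_num
          rw [this, ← pow_mul, ← pow_mul]
          congr 1
          ring
      _ ≤ ((B : ℝ) ^ c) ^ 4 := pow_le_pow_left₀ (by positivity) hbd' 4
      _ = _ := by rw [← pow_mul]; congr 1; ring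
  have h5 : √(1 / (B : ℝ) ^ (8 * c + 4)) * 4 ^ (2 * E) ≤ 1 / (B : ℝ) ^ 2 := by
    rw [hsq]
    calc 1 / (B : ℝ) ^ (4 * c + 2) * 4 ^ (2 * E)
        ≤ 1 / (B : ℝ) ^ (4 * c + 2) * (B : ℝ) ^ (4 * c) :=
          mul_le_mul_of_nonneg_left h4 (by positivity)
      _ = 1 / (B : ℝ) ^ 2 := by
          rw [pow_add]
          field_simp
  have h6 : (r : ℝ) * (√(1 / (B : ℝ) ^ (8 * c + 4)) * 4 ^ (2 * E)) ≤
      1 / (2 * (L : ℝ) ^ (k + 4)) := by
    calc (r : ℝ) * (√(1 / (B : ℝ) ^ (8 * c + 4)) * 4 ^ (2 * E))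
        ≤ L * (1 / (B : ℝ) ^ 2) := mul_le_mul hrL h5 (by positivity) hLp.le
      _ ≤ 1 / (2 * (L : ℝ) ^ (k + 4)) := by
          rw [mul_one_div, div_le_div_iff₀ (by positivity) (by positivity)]
          calc (L : ℝ) * (2 * (L : ℝ) ^ (k + 4)) = 2 * (L : ℝ) ^ (k + 5) := by ring
            _ ≤ L * (L : ℝ) ^ (k + 5) := mul_le_mul_of_nonneg_right hL2' (by positivity)
            _ = (L : ℝ) ^ (k + 6) := by ring
            _ ≤ B := hLB'
            _ = B * 1 := by ring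
            _ ≤ B * B := mul_le_mul_of_nonneg_left hB1' hBp.le
            _ = 1 * (B : ℝ) ^ 2 := by ring
  have h7 : 1 / (L : ℝ) ^ (k + 5) ≤ 1 / (2 * (L : ℝ) ^ (k + 4)) := by
    apply one_div_le_one_div_of_le (by positivity)
    calc 2 * (L : ℝ) ^ (k + 4) ≤ L * (L : ℝ) ^ (k + 4) :=
          mul_le_mul_of_nonneg_right hL2' (by positivity)
      _ = _ := by ring
  have h8 : 1 / (2 * (L : ℝ) ^ (k + 4)) + 1 / (2 * (L : ℝ) ^ (k + 4)) =
      1 / (L : ℝ) ^ (k + 4) := by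
    field_simp
    norm_num
  linarith [hy.trans h7]

theorem num : NutStmt → NumStmt := by
  intro hnut c e k
  obtain ⟨L1, h1⟩ := hnut (k + 1) (2 * c) (e + 1)
  obtain ⟨L2, h2⟩ := hnut k 0 0
  obtain ⟨L3, h3⟩ := pow_le_two_pow ((k + 6) * (9 * c + 10))
  refine ⟨9 * c + 10, 8 * c + 4, L1 + L2 + L3, by omega, fun X m T r hr hL0 => ?_⟩
  have hBR : (4 * ((X : ℝ) + m + T) + 4) = ((4 * (X + m + T) + 4 : ℕ) : ℝ) := by push_cast; ring
  rw [hBR]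
  have hX : X ≤ X + m + T := by omega
  have hm : m ≤ 4 * (X + m + T) + 4 := by omega
  have hT : T + 1 ≤ 4 * (X + m + T) + 4 := by omega
  have hlX : 2 ^ lg X ≤ 4 * (X + m + T) + 4 := (two_pow_lg_le X).trans (by omega)
  have hB4 : 4 ≤ 4 * (X + m + T) + 4 := by omega
  have hXB : X ≤ 4 * (X + m + T) + 4 := by omega
  generalize 4 * (X + m + T) + 4 = B at *
  clear hBR hX
  have hB1 : 1 ≤ B := by omega
  have hBq : B ≤ B ^ (9 * c + 10) := by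
    calc B = B ^ 1 := (pow_one _).symm
      _ ≤ B ^ (9 * c + 10) := Nat.pow_le_pow_right hB1 (by omega)
  have hL2 : 2 ≤ lg X := by
    unfold lg
    omega
  have hrX : r ≤ lg X := le_lg hL2 hr
  have hXL : lg X ≤ lg (B ^ (9 * c + 10)) := by
    unfold lg
    exact Nat.add_le_add_right (Nat.log_mono_right (hXB.trans hBq)) 2
  have h4L : 4 * lg X ≤ lg (B ^ (9 * c + 10)) := by
    have h6 : 2 ^ (4 * lg X) ≤ B ^ (9 * c + 10) := by
      calc 2 ^ (4 * lg X) = (2 ^ lg X) ^ 4 := by rw [mul_comm, pow_mul]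
        _ ≤ B ^ 4 := Nat.pow_le_pow_left hlX 4
        _ ≤ _ := Nat.pow_le_pow_right hB1 (by omega)
    have h7 : 4 * lg X ≤ Nat.log 2 (B ^ (9 * c + 10)) :=
      Nat.le_log_of_pow_le (by norm_num) h6
    have h8 : lg (B ^ (9 * c + 10)) = Nat.log 2 (B ^ (9 * c + 10)) + 2 := rfl
    omega
  have hbd : 2 ^ (c * Nat.log 2 X + c) ≤ B ^ c := by
    have e1 : c * Nat.log 2 X + c = (Nat.log 2 X + 1) * c := by ring
    rw [e1, pow_mul]
    refine Nat.pow_le_pow_left (le_trans (Nat.pow_le_pow_right (by norm_num) ?_) hlX) c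
    unfold lg
    omega
  have hN0 : B ^ (9 * c + 10) ≠ 0 := by positivity
  have h2L : 2 ^ lg (B ^ (9 * c + 10)) ≤ 4 * B ^ (9 * c + 10) := by
    unfold lg
    rw [pow_add]
    have := Nat.pow_log_le_self 2 hN0
    omega
  have hLL : 2 ≤ lg (B ^ (9 * c + 10)) := by
    unfold lg
    omega
  have hLB : lg (B ^ (9 * c + 10)) ^ (k + 6) ≤ B := by
    have h5 : 4 * (lg (B ^ (9 * c + 10)) : ℝ) ^ ((k + 6) * (9 * c + 10)) ≤
        2 ^ lg (B ^ (9 * c + 10)) := h3 _ (by omega)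
    have h6 : 4 * lg (B ^ (9 * c + 10)) ^ ((k + 6) * (9 * c + 10)) ≤
        2 ^ lg (B ^ (9 * c + 10)) := by exact_mod_cast h5
    have h7 : (lg (B ^ (9 * c + 10)) ^ (k + 6)) ^ (9 * c + 10) ≤ B ^ (9 * c + 10) := by
      rw [← pow_mul]
      omega
    exact (Nat.pow_le_pow_iff_left (by omega)).mp h7
  have h2r : (2 * r) ^ (e + 1 + 1) ≤ lg (B ^ (9 * c + 10)) ^ (e + 1) := by
    calc (2 * r) ^ (e + 1 + 1) = 2 ^ (e + 2) * (r ^ (e + 1) * r) := by ring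
      _ ≤ 2 ^ (e + 2) * (lg X ^ e * lg X) :=
          Nat.mul_le_mul_left _ (Nat.mul_le_mul hr hrX)
      _ = 2 ^ (e + 2) * lg X ^ (e + 1) := by ring
      _ ≤ 4 ^ (e + 1) * lg X ^ (e + 1) := by
          apply Nat.mul_le_mul_right
          have : (4 : ℕ) = 2 ^ 2 := by norm_num
          rw [this, ← pow_mul]
          exact Nat.pow_le_pow_right (by norm_num) (by omega)
      _ = (4 * lg X) ^ (e + 1) := by ring
      _ ≤ _ := Nat.pow_le_pow_left h4L _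
  obtain ⟨g1, g2, g3, -⟩ := h1 (B ^ (9 * c + 10)) (2 * r) (by omega) h2r
  obtain ⟨-, -, -, g4⟩ := h2 (B ^ (9 * c + 10)) 0 (by omega) (by simp)
  have e7 : k + 1 + 6 = k + 7 := by ring
  rw [e7] at g2 g3
  have e8 : k + 1 + 4 = k + 5 := by ring
  rw [e8] at g3
  refine ⟨hm.trans hBq, hXL, ?_, ?_, g1, g2, ?_, g4⟩
  · have h5 : Nat.log 2 X + 1 ≤ lg (B ^ (9 * c + 10)) := by
      have : lg X = Nat.log 2 X + 2 := rfl
      omega
    calc 2 * (c * Nat.log 2 X + c) = 2 * c * (Nat.log 2 X + 1) := by ring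
      _ ≤ _ := Nat.mul_le_mul_left _ h5
  · exact len_le hB1 hT hbd
  · exact loss_le hB1 hLL (hrX.trans hXL) hbd hLB g3

end Pool.Agent.Helper40.SM
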