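import Pool.Agent.Helper73.SM.GoalsU
import Pool.Agent.Helper56.PNT

/-!
# Project CU (MP_c307ca_nt), packet UAS
-/

set_option autoImplicit false

namespace Pool.Agent.Helper40.SM

open Finset Pool.Agent.Helper73.SM Filter Topology

theorem theta_sub (m n : ℕ) (h : m ≤ n) :
    Chebyshev.theta n - Chebyshev.theta m = ∑ p ∈ (Ioc m n).filter Nat.Prime, Real.log p := by
  unfold Chebyshev.theta
  rw [Nat.floor_natCast, Nat.floor_natCast, sub_eq_iff_eq_add, add_comm]
  rw [Finset.sum_filter, Finset.sum_filter, Finset.sum_filter,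
    ← Finset.sum_Ioc_consecutive _ (Nat.zero_le m) h]

theorem log_prod (S : Finset ℕ) (hS : ∀ p ∈ S, p.Prime) :
    Real.log (∏ p ∈ S, (p : ℝ)) = ∑ p ∈ S, Real.log p :=
  Real.log_prod fun p hp => by exact_mod_cast (hS p hp).ne_zero

theorem PP_prime (n : ℕ) : ∀ p ∈ PP n, p.Prime := fun _ hp => (Finset.mem_filter.1 hp).2

theorem PC_prime (n : ℕ) : ∀ p ∈ PC n, p.Prime := fun _ hp => (Finset.mem_filter.1 hp).2

theorem prod_PP_pos (n : ℕ) : 0 < ∏ p ∈ PP n, (p : ℝ) :=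
  Finset.prod_pos fun p hp => by exact_mod_cast (PP_prime n p hp).pos

theorem prod_PC_pos (n : ℕ) : 0 < ∏ p ∈ PC n, (p : ℝ) :=
  Finset.prod_pos fun p hp => by exact_mod_cast (PC_prime n p hp).pos

theorem log_three : Real.log 3 < 1.1 := by
  rw [Real.log_lt_iff_lt_exp (by norm_num)]
  have h1 : (2.7182818283 : ℝ) ^ 11 < Real.exp 1 ^ 11 :=
    pow_lt_pow_left₀ Real.exp_one_gt_d9 (by norm_num) (by norm_num)
  have h2 : Real.exp 1 ^ 11 = Real.exp 1.1 ^ 10 := by
    rw [← Real.exp_nat_mul, ← Real.exp_nat_mul]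
    norm_num
  rw [h2] at h1
  have h3 : (3 : ℝ) ^ 10 < Real.exp 1.1 ^ 10 := lt_trans (by norm_num) h1
  exact lt_of_pow_lt_pow_left₀ 10 (Real.exp_pos _).le h3

theorem log_three_half : 0.4 < Real.log (3 / 2) := by
  rw [Real.lt_log_iff_exp_lt (by norm_num)]
  have h1 : Real.exp 1 ^ 2 < (2.7182818286 : ℝ) ^ 2 :=
    pow_lt_pow_left₀ Real.exp_one_lt_d9 (Real.exp_pos _).le (by norm_num)
  have h2 : Real.exp 1 ^ 2 = Real.exp 0.4 ^ 5 := by
    rw [← Real.exp_nat_mul, ← Real.exp_nat_mul]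
    norm_num
  rw [h2] at h1
  have h3 : Real.exp 0.4 ^ 5 < (3 / 2 : ℝ) ^ 5 := lt_trans h1 (by norm_num)
  exact lt_of_pow_lt_pow_left₀ 5 (by norm_num) h3

theorem exp_081 : (1.084 : ℝ) ≤ Real.exp 0.081 := by
  have := Real.quadratic_le_exp_of_nonneg (show (0 : ℝ) ≤ 0.081 by norm_num)
  refine le_trans ?_ this
  norm_num

/-- two-sided bound for theta at integers. -/
theorem theta_bd : ∃ n₁ : ℕ, ∀ m : ℕ, n₁ ≤ m → (0.999 : ℝ) * m ≤ Chebyshev.theta m ∧
    Chebyshev.theta m ≤ 1.001 * m := by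
  have h := Helper56.theta_div_tendsto.comp (tendsto_natCast_atTop_atTop (R := ℝ))
  have h1 := h.eventually (Icc_mem_nhds (show (0.999 : ℝ) < 1 by norm_num)
    (show (1 : ℝ) < 1.001 by norm_num))
  obtain ⟨n₁, hn⟩ := eventually_atTop.1 h1
  refine ⟨max n₁ 1, fun m hm => ?_⟩
  have h2 := hn m (le_trans (le_max_left _ _) hm)
  have hm0 : (0 : ℝ) < m := by exact_mod_cast lt_of_lt_of_le one_pos (le_trans (le_max_right _ _) hm)
  obtain ⟨h3, h4⟩ := h2
  simp only [Function.comp_apply] at h3 h4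
  rw [le_div_iff₀ hm0] at h3
  rw [div_le_iff₀ hm0] at h4
  exact ⟨h3, h4⟩

/-- lower bound for `log W`. -/
theorem logW_low (hUDT : StmtUDT) : ∃ n₁ : ℕ, ∀ n : ℕ, n₁ ≤ n →
    0.345 * (n : ℝ) ≤ Real.log ((3 ^ ((n + 2) / 2) * (∏ p ∈ PC n, (p : ℝ)) * ∏ p ∈ PP n, (p : ℝ))
      / Real.sqrt (DD n : ℝ)) := by
  obtain ⟨n₁, h1⟩ := theta_bd
  refine ⟨max n₁ 5000, fun n hn => ?_⟩
  have hn1 : n₁ ≤ n := le_trans (le_max_left _ _) hn
  have hn2 : 5000 ≤ n := le_trans (le_max_right _ _) hn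
  have hn2' : (5000 : ℝ) ≤ n := by exact_mod_cast hn2
  have hD1 : (1 : ℝ) ≤ (DD n : ℝ) := by exact_mod_cast hUDT.pos n
  have hD2 := hUDT.le n
  have hsq : 0 < Real.sqrt (DD n : ℝ) := Real.sqrt_pos.2 (by linarith)
  rw [Real.log_div (by
    have := prod_PP_pos n
    have := prod_PC_pos n
    positivity) hsq.ne', Real.log_mul (by
    have := prod_PC_pos n
    positivity) (prod_PP_pos n).ne', Real.log_mul (by positivity) (prod_PC_pos n).ne',
    Real.log_pow, log_prod _ (PC_prime n), log_prod _ (PP_prime n), Real.log_sqrt (by linarith)]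
  have e1 := theta_sub (n + 1) ((3 * n + 1) / 2) (by omega)
  have e2 := theta_sub ((3 * n + 1) / 2) (3 * n + 1) (by omega)
  have e3 : ∑ p ∈ PC n, Real.log p = ∑ p ∈ (Ioc (n + 1) ((3 * n + 1) / 2)).filter Nat.Prime,
    Real.log p := rfl
  have e4 : ∑ p ∈ PP n, Real.log p = ∑ p ∈ (Ioc ((3 * n + 1) / 2) (3 * n + 1)).filter Nat.Prime,
    Real.log p := rfl
  rw [e3, e4, ← e1, ← e2]
  have hlD : Real.log (DD n : ℝ) ≤ Real.log 6 + n * (4 * Real.log 3) := by
    have h5 := Real.log_le_log (by linarith) hD2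
    rw [Real.log_mul (by norm_num) (by positivity), Real.log_pow,
      show (81 : ℝ) = 3 ^ 4 by norm_num, Real.log_pow] at h5
    exact_mod_cast h5
  have hl6 : Real.log 6 ≤ 5 := by
    have := Real.log_le_sub_one_of_pos (show (0 : ℝ) < 6 by norm_num)
    linarith
  have hl3 := log_three
  have hl30 : 0 < Real.log 3 := Real.log_pos (by norm_num)
  obtain ⟨h6, _⟩ := h1 (3 * n + 1) (by omega)
  obtain ⟨_, h7⟩ := h1 (n + 1) (by omega)
  have h8 : (n : ℝ) / 2 ≤ (((n + 2) / 2 : ℕ) : ℝ) := by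
    have : n ≤ 2 * ((n + 2) / 2) := by omega
    have h9 : (n : ℝ) ≤ 2 * (((n + 2) / 2 : ℕ) : ℝ) := by exact_mod_cast this
    linarith
  have h10 : (n : ℝ) / 2 * Real.log 3 ≤ (((n + 2) / 2 : ℕ) : ℝ) * Real.log 3 :=
    mul_le_mul_of_nonneg_right h8 hl30.le
  push_cast at h6 h7 ⊢
  nlinarith [mul_lt_mul_of_pos_left hl3 (show (0 : ℝ) < n by linarith)]

/-- the number of primes in `PP n`. -/
theorem card_PP : ∃ n₁ : ℕ, ∀ n : ℕ, n₁ ≤ n →
    ((PP n).card : ℝ) * Real.log n ≤ 1.51 * n := by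
  obtain ⟨n₁, h1⟩ := theta_bd
  refine ⟨max n₁ 5000, fun n hn => ?_⟩
  have hn1 : n₁ ≤ n := le_trans (le_max_left _ _) hn
  have hn2 : 5000 ≤ n := le_trans (le_max_right _ _) hn
  have hn2' : (5000 : ℝ) ≤ n := by exact_mod_cast hn2
  have e2 := theta_sub ((3 * n + 1) / 2) (3 * n + 1) (by omega)
  have h2 : ((PP n).card : ℝ) * Real.log n ≤ ∑ p ∈ PP n, Real.log p := by
    rw [← nsmul_eq_mul, ← Finset.sum_const]
    refine Finset.sum_le_sum fun p hp => ?_
    have h3 := (Finset.mem_Ioc.1 (Finset.mem_filter.1 hp).1).1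
    refine Real.log_le_log (by linarith) ?_
    have : n ≤ p := by omega
    exact_mod_cast this
  have e4 : ∑ p ∈ PP n, Real.log p = ∑ p ∈ (Ioc ((3 * n + 1) / 2) (3 * n + 1)).filter Nat.Prime,
    Real.log p := rfl
  rw [e4, ← e2] at h2
  obtain ⟨_, h6⟩ := h1 (3 * n + 1) (by omega)
  obtain ⟨h7, _⟩ := h1 ((3 * n + 1) / 2) (by omega)
  have h8 : (1.5 : ℝ) * n ≤ (((3 * n + 1) / 2 : ℕ) : ℝ) := by
    have : 3 * n ≤ 2 * ((3 * n + 1) / 2) := by omega
    have h9 : (3 : ℝ) * n ≤ 2 * (((3 * n + 1) / 2 : ℕ) : ℝ) := by exact_mod_cast this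
    linarith
  push_cast at h6 h2
  linarith

/-- `log (3n+1) ≤ 1.01 log n` for large `n`. -/
theorem log_ratio : ∃ n₁ : ℕ, ∀ n : ℕ, n₁ ≤ n →
    Real.log ((3 * n + 1 : ℕ) : ℝ) ≤ 1.01 * Real.log n := by
  have h := (Real.tendsto_log_atTop.comp (tendsto_natCast_atTop_atTop (R := ℝ))).eventually
    (eventually_ge_atTop (300 : ℝ))
  obtain ⟨n₁, hn⟩ := eventually_atTop.1 h
  refine ⟨max n₁ 1, fun n hn' => ?_⟩
  have h1 := hn n (le_trans (le_max_left _ _) hn')
  simp only [Function.comp_apply] at h1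
  have hn0 : (1 : ℝ) ≤ n := by exact_mod_cast le_trans (le_max_right _ _) hn'
  have h2 : Real.log ((3 * n + 1 : ℕ) : ℝ) ≤ Real.log (4 * n) := by
    refine Real.log_le_log (by positivity) ?_
    push_cast
    linarith
  have h3 : Real.log (4 * (n : ℝ)) = Real.log 4 + Real.log n :=
    Real.log_mul (by norm_num) (by linarith)
  have h4 : Real.log 4 ≤ 3 := by
    have := Real.log_le_sub_one_of_pos (show (0 : ℝ) < 4 by norm_num)
    linarith
  linarith

theorem goalUAS (hUDT : StmtUDT) : StmtUAS := by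
  obtain ⟨a, ha⟩ := logW_low hUDT
  obtain ⟨b, hb⟩ := card_PP
  obtain ⟨c, hc⟩ := log_ratio
  refine ⟨max (max a b) (max c 5000), le_trans (by norm_num) ((le_max_right _ _).trans
    (le_max_right _ _)), fun n hn W hW => ?_⟩
  have h1 : a ≤ n := le_trans ((le_max_left _ _).trans (le_max_left _ _)) hn
  have h2 : b ≤ n := le_trans ((le_max_right _ _).trans (le_max_left _ _)) hn
  have h3 : c ≤ n := le_trans ((le_max_left _ _).trans (le_max_right _ _)) hn
  have h4 : 5000 ≤ n := le_trans ((le_max_right _ _).trans (le_max_right _ _)) hn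
  have h4' : (5000 : ℝ) ≤ n := by exact_mod_cast h4
  have hA := ha n h1
  have hB := hb n h2
  have hC := hc n h3
  rw [← hW] at hA
  have hlogn : 0 < Real.log n := Real.log_pos (by linarith)
  have hD1 : (1 : ℝ) ≤ (DD n : ℝ) := by exact_mod_cast hUDT.pos n
  have hsq : 0 < Real.sqrt (DD n : ℝ) := Real.sqrt_pos.2 (by linarith)
  have hWpos : 0 < W := by
    rw [hW]
    have := prod_PP_pos n
    have := prod_PC_pos n
    positivity
  have hlW : 0 ≤ Real.log W := by linarith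
  refine ⟨(Real.log_nonneg_iff hWpos).1 hlW, ?_⟩
  have hl3 : 0 < Real.log ((3 * n + 1 : ℕ) : ℝ) := by
    apply Real.log_pos
    push_cast
    linarith
  -- the exponent
  have hx : 0.34 * (n / Real.log n) ≤ Real.log W / Real.log ((3 * n + 1 : ℕ) : ℝ) := by
    rw [le_div_iff₀ hl3]
    calc 0.34 * (n / Real.log n) * Real.log ((3 * n + 1 : ℕ) : ℝ)
        ≤ 0.34 * (n / Real.log n) * (1.01 * Real.log n) := by gcongr
      _ = 0.34 * 1.01 * n := by field_simp
      _ ≤ Real.log W := by linarith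
  have hx0 : 0 ≤ Real.log W / Real.log ((3 * n + 1 : ℕ) : ℝ) := by positivity
  have hP : ∏ p ∈ PP n, (1 + ((p : ℝ) + 2) / (12 * p)) ≤ Real.exp (0.081 * (PP n).card) := by
    rw [mul_comm, Real.exp_nat_mul, ← Finset.prod_const]
    refine Finset.prod_le_prod (fun p _ => by positivity) fun p hp => ?_
    have h5 := (Finset.mem_Ioc.1 (Finset.mem_filter.1 hp).1).1
    have h6 : n ≤ p := by omega
    have h7 : (5000 : ℝ) ≤ p := by exact_mod_cast h4.trans h6
    refine le_trans ?_ exp_081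
    have h8 : ((p : ℝ) + 2) / (12 * p) ≤ 0.084 := by
      rw [div_le_iff₀ (by positivity)]
      linarith
    linarith
  have hcard : ((PP n).card : ℝ) ≤ 1.51 * (n / Real.log n) := by
    rw [← mul_div_assoc, le_div_iff₀ hlogn]
    exact hB
  have hrp : (3 / 2 : ℝ) ^ (-(Real.log W / Real.log ((3 * n + 1 : ℕ) : ℝ)))
      = Real.exp (-(Real.log W / Real.log ((3 * n + 1 : ℕ) : ℝ)) * Real.log (3 / 2)) := by
    rw [Real.rpow_def_of_pos (by norm_num), mul_comm]
  rw [hrp]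
  calc Real.exp (-(Real.log W / Real.log ((3 * n + 1 : ℕ) : ℝ)) * Real.log (3 / 2))
        * ∏ p ∈ PP n, (1 + ((p : ℝ) + 2) / (12 * p))
      ≤ Real.exp (-(Real.log W / Real.log ((3 * n + 1 : ℕ) : ℝ)) * Real.log (3 / 2))
        * Real.exp (0.081 * (PP n).card) := by gcongr
    _ = Real.exp (-(Real.log W / Real.log ((3 * n + 1 : ℕ) : ℝ)) * Real.log (3 / 2)
        + 0.081 * (PP n).card) := (Real.exp_add _ _).symm
    _ ≤ Real.exp (-(n / (100 * Real.log n))) := by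
        apply Real.exp_le_exp.2
        have hy : 0 ≤ (n : ℝ) / Real.log n := by positivity
        have e1 : (n : ℝ) / (100 * Real.log n) = 0.01 * (n / Real.log n) := by
          field_simp
          norm_num
        rw [e1]
        have h9 : 0.34 * (n / Real.log n) * 0.4 ≤
            Real.log W / Real.log ((3 * n + 1 : ℕ) : ℝ) * Real.log (3 / 2) :=
          mul_le_mul hx log_three_half.le (by norm_num) hx0
        nlinarith

end Pool.Agent.Helper40.SM
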