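import Pool.Agent.Helper73.SM.GoalsU

/-!
# Project CU (MP_c307ca_nt), packet ULD
-/

set_option autoImplicit false

namespace Pool.Agent.Helper40.SM

open Finset Pool.Agent.Helper73.SM

open Classical in
theorem prod_ind (Ps : Finset ℕ) (P : ℕ → Prop) :
    (3 / 2 : ℝ) ^ (Ps.filter P).card
      = ∑ t ∈ Ps.powerset, if ∀ p ∈ t, P p then (1 / 2 : ℝ) ^ t.card else 0 := by
  have h1 : (3 / 2 : ℝ) ^ (Ps.filter P).card = ∏ p ∈ Ps, (1 + if P p then (1 / 2 : ℝ) else 0) := by
    rw [← Finset.prod_const, Finset.prod_filter]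
    refine Finset.prod_congr rfl fun p _ => ?_
    split_ifs <;> norm_num
  rw [h1, Finset.prod_one_add]
  refine Finset.sum_congr rfl fun t _ => ?_
  by_cases h : ∀ p ∈ t, P p
  · rw [if_pos h, ← Finset.prod_const]
    exact Finset.prod_congr rfl fun p hp => if_pos (h p hp)
  · rw [if_neg h]
    push Not at h
    obtain ⟨p, hp, hP⟩ := h
    exact Finset.prod_eq_zero hp (if_neg hP)

theorem goalULD (hUCR : StmtUCR) : StmtULD := by
  classical
  intro X M Ps E W hM hPs hX hE hc hW
  have hlM : 0 < Real.log M := Real.log_pos (by exact_mod_cast (show 1 < M by omega))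
  have hlW : 0 ≤ Real.log W := Real.log_nonneg hW
  set e : ℝ := Real.log W / Real.log M with he
  -- the big sum
  have hsum : ∑ N ∈ Ioc X (2 * X), (3 / 2 : ℝ) ^ (Ps.filter (fun p => E p N)).card
      ≤ 2 * X * ∏ p ∈ Ps, (1 + ((p : ℝ) + 2) / (12 * p)) := by
    have h1 : ∑ N ∈ Ioc X (2 * X), (3 / 2 : ℝ) ^ (Ps.filter (fun p => E p N)).card
        = ∑ t ∈ Ps.powerset, (1 / 2 : ℝ) ^ t.card *
          (((Ioc X (2 * X)).filter (fun N => ∀ p ∈ t, E p N)).card : ℝ) := by
      rw [Finset.sum_congr rfl fun N _ => prod_ind Ps (fun p => E p N), Finset.sum_comm]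
      refine Finset.sum_congr rfl fun t _ => ?_
      rw [← Finset.sum_filter, Finset.sum_const, nsmul_eq_mul, mul_comm]
    rw [h1, Finset.prod_one_add, Finset.mul_sum]
    refine Finset.sum_le_sum fun t ht => ?_
    have hsub : t ⊆ Ps := Finset.mem_powerset.1 ht
    have h2 := hUCR X t E (fun p hp => (hPs p (hsub hp)).1) (by
      refine le_trans ?_ hX
      exact Finset.prod_le_prod_of_subset_of_one_le' hsub fun p hp _ => (hPs p hp).1.one_lt.le)
      (fun p hp => hE p (hsub hp))
    calc (1 / 2 : ℝ) ^ t.card * (((Ioc X (2 * X)).filter (fun N => ∀ p ∈ t, E p N)).card : ℝ)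
        ≤ (1 / 2 : ℝ) ^ t.card *
          (2 * X * ∏ p ∈ t, ((((range p).filter (fun a => E p a)).card : ℝ) / p)) := by
          gcongr
      _ = 2 * X * ∏ p ∈ t, ((1 / 2 : ℝ) * ((((range p).filter (fun a => E p a)).card : ℝ) / p)) := by
          rw [Finset.prod_mul_distrib, Finset.prod_const]
          ring
      _ ≤ 2 * X * ∏ p ∈ t, (((p : ℝ) + 2) / (12 * p)) := by
          refine mul_le_mul_of_nonneg_left ?_ (by positivity)
          refine Finset.prod_le_prod (fun p _ => by positivity) fun p hp => ?_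
          have h3 := hc p (hsub hp)
          have hp0 : (0 : ℝ) < p := by exact_mod_cast (hPs p (hsub hp)).1.pos
          have h4 : (6 : ℝ) * (((range p).filter (fun a => E p a)).card : ℝ) ≤ p + 2 := by
            exact_mod_cast h3
          rw [← mul_div_assoc, div_le_div_iff₀ hp0 (by positivity)]
          nlinarith
  -- lower bound for every bad `N`
  have hlow : (((Ioc X (2 * X)).filter
      (fun N => W < ∏ p ∈ Ps.filter (fun p => E p N), (p : ℝ))).card : ℝ) * (3 / 2 : ℝ) ^ e
      ≤ ∑ N ∈ Ioc X (2 * X), (3 / 2 : ℝ) ^ (Ps.filter (fun p => E p N)).card := by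
    calc _ = ∑ N ∈ (Ioc X (2 * X)).filter
          (fun N => W < ∏ p ∈ Ps.filter (fun p => E p N), (p : ℝ)), (3 / 2 : ℝ) ^ e := by
          rw [Finset.sum_const, nsmul_eq_mul]
      _ ≤ ∑ N ∈ (Ioc X (2 * X)).filter
          (fun N => W < ∏ p ∈ Ps.filter (fun p => E p N), (p : ℝ)),
            (3 / 2 : ℝ) ^ (Ps.filter (fun p => E p N)).card := by
          refine Finset.sum_le_sum fun N hN => ?_
          have hN2 := (Finset.mem_filter.1 hN).2
          have h5 : ∏ p ∈ Ps.filter (fun p => E p N), (p : ℝ)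
              ≤ (M : ℝ) ^ (Ps.filter (fun p => E p N)).card := by
            rw [← Finset.prod_const]
            refine Finset.prod_le_prod (fun p _ => by positivity) fun p hp => ?_
            exact_mod_cast (hPs p (Finset.mem_filter.1 hp).1).2
          have h6 : Real.log W ≤ (Ps.filter (fun p => E p N)).card * Real.log M := by
            rw [← Real.log_pow]
            exact Real.log_le_log (by linarith) (hN2.le.trans h5)
          have h7 : e ≤ ((Ps.filter (fun p => E p N)).card : ℝ) := by
            rw [he, div_le_iff₀ hlM]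
            exact h6
          rw [← Real.rpow_natCast]
          exact Real.rpow_le_rpow_of_exponent_le (by norm_num) h7
      _ ≤ _ := Finset.sum_le_sum_of_subset_of_nonneg (Finset.filter_subset _ _)
          fun _ _ _ => by positivity
  have hpos : 0 < (3 / 2 : ℝ) ^ e := Real.rpow_pos_of_pos (by norm_num) _
  have hfin := hlow.trans hsum
  rw [Real.rpow_neg (by norm_num)]
  rw [← le_div_iff₀ hpos] at hfin
  refine hfin.trans (le_of_eq ?_)
  field_simp

end Pool.Agent.Helper40.SM
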